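import Pool.Agent.W646.PN.Stm

/-!
PN-ZERO: a renorming with polynomial numerical index 0.
-/

set_option autoImplicit false

namespace Pool.Agent.W391.PN.Zero

open Pool.Agent.W646.PN

section

variable {W : Type} [NormedAddCommGroup W] [NormedSpace ℝ W]

/-- first coordinate functional -/
noncomputable def p0 : (ℂ × W) →L[ℝ] ℝ := Complex.reCLM.comp (ContinuousLinearMap.fst ℝ ℂ W)

/-- second coordinate functional -/
noncomputable def p1 : (ℂ × W) →L[ℝ] ℝ := Complex.imCLM.comp (ContinuousLinearMap.fst ℝ ℂ W)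

/-- the polynomial -/
noncomputable def A (m : ℕ) : ContinuousMultilinearMap ℝ (fun _ : Fin (m + 1) => ℂ × W) (ℂ × W) :=
  (ContinuousLinearMap.smulRight (1 : ℝ →L[ℝ] ℝ) ((Complex.I, 0) : ℂ × W)).compContinuousMultilinearMap
    ((ContinuousMultilinearMap.mkPiAlgebra ℝ (Fin (m + 1)) ℝ).compContinuousLinearMap
      (fun _ => p0))
  - (ContinuousLinearMap.smulRight (1 : ℝ →L[ℝ] ℝ) ((1, 0) : ℂ × W)).compContinuousMultilinearMap
    ((ContinuousMultilinearMap.mkPiAlgebra ℝ (Fin (m + 1)) ℝ).compContinuousLinearMap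
      (fun i => if i = 0 then p1 else p0))

theorem A_apply (m : ℕ) (y : ℂ × W) :
    A m (fun _ => y) = (y.1.re ^ m) • ((Complex.I * y.1, 0) : ℂ × W) := by
  have h1 : A m (fun _ => y) = (y.1.re ^ (m + 1)) • ((Complex.I, 0) : ℂ × W)
      - (y.1.im * y.1.re ^ m) • ((1, 0) : ℂ × W) := by
    simp only [A, sub_apply,
      ContinuousLinearMap.compContinuousMultilinearMap_coe, Function.comp_apply,
      ContinuousMultilinearMap.compContinuousLinearMap_apply,
      ContinuousMultilinearMap.mkPiAlgebra_apply, ContinuousLinearMap.smulRight_apply,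
      one_apply_eq_self]
    congr 2
    · simp [p0]
    · rw [Fin.prod_univ_succ]
      simp [p0, p1, Fin.succ_ne_zero]
  rw [h1, pow_succ]
  generalize y.1.re ^ m = c
  apply Prod.ext
  · apply Complex.ext
    · simp
      ring
    · simp
  · simp

theorem A_norm (m : ℕ) (y : ℂ × W) : ‖A m (fun _ => y)‖ = |y.1.re| ^ m * ‖y.1‖ := by
  rw [A_apply, norm_smul, norm_pow, Real.norm_eq_abs]
  congr 1
  rw [Prod.norm_def]
  simp

theorem A_polyNorm (m : ℕ) : polyNorm (A m : ContinuousMultilinearMap ℝ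
    (fun _ : Fin (m + 1) => ℂ × W) (ℂ × W)) = 1 := by
  apply le_antisymm
  · apply polyNorm_le
    intro x hx
    rw [A_norm]
    have h1 : ‖x.1‖ ≤ 1 := (norm_fst_le x).trans hx
    have h2 : |x.1.re| ≤ 1 := (Complex.abs_re_le_norm _).trans h1
    exact mul_le_one₀ (pow_le_one₀ (abs_nonneg _) h2) (norm_nonneg _) h1
  · have := le_polyNorm (A m : ContinuousMultilinearMap ℝ
      (fun _ : Fin (m + 1) => ℂ × W) (ℂ × W)) ((1, 0) : ℂ × W) (by simp [Prod.norm_def])
    rw [A_norm] at this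
    simpa using this

theorem A_radius (m : ℕ) : polyRadius (A m : ContinuousMultilinearMap ℝ
    (fun _ : Fin (m + 1) => ℂ × W) (ℂ × W)) ≤ 0 := by
  apply polyRadius_le _ _ le_rfl
  intro y f hy hf hfy
  rw [A_apply, map_smul]
  set a : ℝ := f (Complex.I * y.1, 0) with ha
  have h1 : ‖y.1‖ ≤ 1 := (norm_fst_le y).trans hy.le
  have h2 : ‖y.2‖ ≤ 1 := (norm_snd_le y).trans hy.le
  have key : 1 + a * a ≤ 1 + a ^ 2 / 2 := by
    have e1 : f (y + a • ((Complex.I * y.1, 0) : ℂ × W)) = 1 + a * a := by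
      rw [map_add, hfy, map_smul, smul_eq_mul]
    have e2 : ‖y + a • ((Complex.I * y.1, 0) : ℂ × W)‖ ≤ 1 + a ^ 2 / 2 := by
      rw [Prod.norm_def]
      apply max_le
      · have : (y + a • ((Complex.I * y.1, 0) : ℂ × W)).1 = (1 + (a : ℂ) * Complex.I) * y.1 := by
          simp
          ring
        rw [this, norm_mul]
        have h3 : ‖(1 + (a : ℂ) * Complex.I)‖ ≤ 1 + a ^ 2 / 2 := by
          have h4 : ‖(1 + (a : ℂ) * Complex.I)‖ ^ 2 = 1 + a ^ 2 := by
            rw [← Complex.normSq_eq_norm_sq, Complex.normSq_apply]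
            simp
            ring
          have h5 : 0 ≤ 1 + a ^ 2 / 2 := by positivity
          apply le_of_sq_le_sq _ h5
          rw [h4]
          nlinarith [sq_nonneg (a ^ 2)]
        calc ‖(1 + (a : ℂ) * Complex.I)‖ * ‖y.1‖ ≤ (1 + a ^ 2 / 2) * 1 := by
              gcongr
          _ = _ := mul_one _
      · have : (y + a • ((Complex.I * y.1, 0) : ℂ × W)).2 = y.2 := by simp
        rw [this]
        have : 0 ≤ a ^ 2 / 2 := by positivity
        linarith
    calc 1 + a * a = f (y + a • ((Complex.I * y.1, 0) : ℂ × W)) := e1.symm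
      _ ≤ ‖f (y + a • ((Complex.I * y.1, 0) : ℂ × W))‖ := le_abs_self _
      _ ≤ ‖f‖ * ‖y + a • ((Complex.I * y.1, 0) : ℂ × W)‖ := f.le_opNorm _
      _ ≤ 1 + a ^ 2 / 2 := by rw [hf, one_mul]; exact e2
  have ha0 : a = 0 := by
    have : a ^ 2 ≤ 0 := by nlinarith
    exact pow_eq_zero_iff (two_ne_zero) |>.1 (le_antisymm this (sq_nonneg a))
  rw [ha0, smul_zero, norm_zero]

theorem index_zero (m : ℕ) : polyIndex (m + 1) (ℂ × W) = 0 := by
  apply le_antisymm _ index_nonneg
  have h := index_mul_le (A m : ContinuousMultilinearMap ℝ (fun _ : Fin (m + 1) => ℂ × W) (ℂ × W))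
  rw [A_polyNorm, mul_one] at h
  exact h.trans (A_radius m)

end

theorem main : S_ZERO := by
  intro X _ _ _ f₀ f₁ x₀ x₁ h00 h01 h10 h11 k hk
  obtain ⟨m, rfl⟩ : ∃ m, k = m + 1 := ⟨k - 1, by omega⟩
  let W : Submodule ℝ X := LinearMap.ker (f₀ : X →ₗ[ℝ] ℝ) ⊓ LinearMap.ker (f₁ : X →ₗ[ℝ] ℝ)
  have hW : ∀ x : X, x ∈ W ↔ f₀ x = 0 ∧ f₁ x = 0 := by
    intro x
    exact Iff.rfl
  have hcl : IsClosed (W : Set X) := by
    have : (W : Set X) = {x | f₀ x = 0} ∩ {x | f₁ x = 0} := by
      ext x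
      exact hW x
    rw [this]
    exact (isClosed_eq f₀.continuous continuous_const).inter
      (isClosed_eq f₁.continuous continuous_const)
  have : CompleteSpace W := hcl.completeSpace_coe
  let F : X →L[ℝ] ℂ := f₀.smulRight (1 : ℂ) + f₁.smulRight Complex.I
  let G0 : X →L[ℝ] X := ContinuousLinearMap.id ℝ X - f₀.smulRight x₀ - f₁.smulRight x₁
  have hG0 : ∀ x, G0 x ∈ W := by
    intro x
    rw [hW]
    constructor <;> simp [G0, h00, h01, h10, h11]
  let G : X →L[ℝ] W := G0.codRestrict W hG0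
  let T : X →L[ℝ] ℂ × W := F.prod G
  let S : ℂ × W →L[ℝ] X := (Complex.reCLM.smulRight x₀ + Complex.imCLM.smulRight x₁).coprod W.subtypeL
  refine ⟨ℂ × W, inferInstance, inferInstance, inferInstance, inferInstance,
    ⟨ContinuousLinearEquiv.equivOfInverse T S ?_ ?_⟩, index_zero m⟩
  · intro x
    simp [T, S, F, G, G0]
  · rintro ⟨e, w, hw⟩
    rw [hW] at hw
    apply Prod.ext
    · apply Complex.ext <;> simp [T, S, F, h00, h01, h10, h11, hw.1, hw.2]
    · apply Subtype.ext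
      simp [T, S, G, G0, h00, h01, h10, h11, hw.1, hw.2]

end Pool.Agent.W391.PN.Zero


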